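import Pool.Agent.U644.GD.Core

/-!
# Singer's conjecture for Poincaré duality groups follows from an asymptotic form

Products and subgroups of finite index of Poincaré duality groups are Poincaré duality groups. If
`b_i(Γ₀) ≠ 0` for some `i < n₀ / 2`, `n₀ = dim Γ₀`, then `Γ₀^(2k) × S^(l+1)`, with `S` the fundamental
group of the surface of genus two, has a Betti number `b_j ≠ 0` with `j ≤ (1/2 - ε) n` in its
dimension `n = 2 k n₀ + 2 l + 2`, where `ε = 1 / (4 n₀)`, and it has subgroups of every index; on
these `b_j` is a fixed positive multiple of the index. So it suffices to bound `b_j` by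
`η size + C`, for all `η > 0`, for `j ≤ (1/2 - ε) n` and for arbitrarily large even `n`.
-/

set_option autoImplicit false

namespace Pool.Agent.Results.MP_984acc_gt.AsymptoticSinger

open Pool.Agent.U644.GD

/-- Poincaré duality for the `L²`-Betti numbers, and vanishing above the dimension. -/
structure Duality (A : Data) : Prop where
  duality : ∀ X i, i ≤ A.dim X → A.betti X i = A.betti X (A.dim X - i)
  above : ∀ X i, A.dim X < i → A.betti X i = 0

/-- Singer's conjecture for all Poincaré duality groups is equivalent to: for all `ε > 0` and `N`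
there is an even `n ≥ N` such that for every `η > 0` there is `C` with `b_i(Γ) ≤ η size(Γ) + C` for
all `n`-dimensional Poincaré duality groups `Γ` and all `i ≤ (1/2 - ε) n`. -/
theorem result (A : Data) (h : Facts A) (hd : Duality A) :
    (∀ X i, 2 * i ≠ A.dim X → A.betti X i = 0) ↔
    (∀ ε : ℝ, 0 < ε → ∀ N : ℕ, ∃ n : ℕ, N ≤ n ∧ Even n ∧ ∀ η : ℝ, 0 < η → ∃ C : ℝ,
      ∀ X, A.dim X = n → ∀ i : ℕ, (i : ℝ) ≤ (1 / 2 - ε) * n → A.betti X i ≤ η * A.size X + C) := by
  constructor
  · intro hs ε hε N
    refine ⟨2 * (N + 1), by omega, ⟨N + 1, by ring⟩, fun η hη => ⟨0, fun X hX i hi => ?_⟩⟩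
    have hne : 2 * i ≠ A.dim X := by
      intro he
      rw [hX] at he
      have h1 : i = N + 1 := by omega
      rw [h1] at hi
      push_cast at hi
      have h2 : (0 : ℝ) ≤ N := Nat.cast_nonneg N
      nlinarith
    rw [hs X i hne]
    have := h.size_nonneg X
    positivity
  · intro ha
    -- first the degrees below the middle
    have low : ∀ X i, 2 * i < A.dim X → A.betti X i = 0 := by
      intro X i hi
      by_contra hne
      have hpos : 0 < A.betti X i := lt_of_le_of_ne (h.betti_nonneg X i) (Ne.symm hne)
      set m := A.dim X with hm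
      have hm0 : 0 < m := by omega
      have hmr : (0 : ℝ) < m := by exact_mod_cast hm0
      obtain ⟨S, hS1, hS2, hS3⟩ := h.surface
      obtain ⟨n, hn, ⟨n', hn'⟩, hall⟩ := ha (1 / (4 * m)) (by positivity) (2 * (m + 1))
      -- `n' = k m + l + 1`
      set k := (n' - 1) / m with hk
      set l := (n' - 1) % m with hl
      have hlm : l < m := Nat.mod_lt _ hm0
      have hkl : m * k + l = n' - 1 := Nat.div_add_mod _ _
      have hk1 : 1 ≤ k := (Nat.one_le_div_iff hm0).2 (by omega)
      obtain ⟨Q₁, q1, q2⟩ := times h hpos hpos (2 * k - 1)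
      obtain ⟨Q, q3, q4⟩ := times h q2 hS2 l
      have hPd : A.dim (A.prod Q S) = n := by
        rw [h.dim_prod, q3, q1, hS1, ← hm]
        obtain ⟨k', hk'⟩ : ∃ k', k = k' + 1 := ⟨k - 1, by omega⟩
        rw [hk'] at hkl ⊢
        have e1 : 2 * (k' + 1) - 1 = 2 * k' + 1 := by omega
        rw [e1]
        have e2 : m + (2 * k' + 1) * m + l * 2 + 2 = 2 * (m * (k' + 1) + l + 1) := by ring
        rw [e2, hkl]
        omega
      set j := i + (2 * k - 1) * i + l * 1 + 1 with hj
      have hP : 0 < A.betti (A.prod Q S) j :=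
        lt_of_lt_of_le (mul_pos q4 hS2) (h.kunneth _ _ _ _)
      obtain ⟨η, hη, hY⟩ := not_sublinear h hS3 hP
      obtain ⟨C, hC⟩ := hall η hη
      obtain ⟨Y, hY1, hY2⟩ := hY C
      have hjn : (j : ℝ) ≤ (1 / 2 - 1 / (4 * m)) * n := by
        have hj' : j = 2 * k * i + l + 1 := by
          obtain ⟨k', hk'⟩ : ∃ k', k = k' + 1 := ⟨k - 1, by omega⟩
          rw [hj, hk']
          have e1 : 2 * (k' + 1) - 1 = 2 * k' + 1 := by omega
          rw [e1]; ring
        have h1 : k * (2 * i + 1) ≤ k * m := Nat.mul_le_mul_left _ (by omega)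
        have h2 : n' = m * k + l + 1 := by omega
        have h3 : m ≤ m * k := Nat.le_mul_of_pos_right _ hk1
        have h4 : n' ≤ 2 * (m * k) := by omega
        have h5 : j + k ≤ n' := by
          rw [hj', h2]
          have : 2 * k * i + k = k * (2 * i + 1) := by ring
          have e : m * k = k * m := mul_comm _ _
          omega
        have h4r : (n' : ℝ) ≤ 2 * (m * k) := by exact_mod_cast h4
        have h5r : (j : ℝ) + k ≤ n' := by exact_mod_cast h5
        have hnr : (n : ℝ) = 2 * n' := by rw [hn']; push_cast; ring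
        rw [hnr]
        have e : (1 / 2 - 1 / (4 * (m : ℝ))) * (2 * n') = n' - n' / (2 * m) := by
          field_simp
          ring
        rw [e]
        have h6 : (n' : ℝ) / (2 * m) ≤ k := by
          rw [div_le_iff₀ (by positivity)]
          linarith
        linarith
      have h7 := hC Y (by rw [hY1, hPd]) j hjn
      linarith
    intro X i hi
    rcases lt_trichotomy (2 * i) (A.dim X) with h1 | h1 | h1
    · exact low X i h1
    · exact absurd h1 hi
    · by_cases h2 : i ≤ A.dim X
      · rw [hd.duality X i h2]
        exact low X _ (by omega)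
      · exact hd.above X i (by omega)

end Pool.Agent.Results.MP_984acc_gt.AsymptoticSinger
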