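import Pool.Agent.U410.CO.Hv
import Pool.Agent.N496.CV.L2Pf
import Pool.Agent.N496.CV.Euler

/-!
# The Singer conjecture for the Poincare duality subgroups of right-angled Coxeter groups

Let `K` be a Poincare duality group of dimension `q` (and of type FL, orientable or not, `PD K q`) which is contained
in the torsion-free normal subgroup `ker (W G → (ℤ/2)^V)` of the right-angled Coxeter group `W G` of a finite graph
`G`; the index may be infinite. We show that the Singer conjecture holds for `K`, and the inequality
`(-1)^(q/2) χ(K) ≥ 0`, if `q ≥ 2 t`, where `t` is an elimination bound of `G`: the flag complex of `G` can be built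
from the empty complex by cones, by suspensions, and by adding vertices to complexes with the bound `t` along links
with the bound `t - 1` (`Th G t V`).

For example one can take `t = n / 2` if the flag complex of `G` is a thin flag triangulation of the sphere of dimension
`n - 1` (`Thin G n V`): it has at most `5 n / 2` vertices, or at most `3 n - c`, where `c` is the number of the join
factors; or `n` is even and the links of the vertices are thin; or `n` is odd, the links of the edges are thin, and
the non-neighbours of some vertex span a tree; or it is a join of thin complexes. Then `Γ = ker (W G → (ℤ/2)^V)` is the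
fundamental group of a closed aspherical `n`-manifold `M`, and the result applies to the subgroups of finite index
(`q = n`) and, for `n = 2 d + 1`, to all the Poincare duality subgroups of codimension one (`q = 2 d`), for example to
the fundamental groups of all the `π_1`-injective closed aspherical `2 d`-manifolds in `M` and in its covers.
One can also take `t = N - 2 n` for all the flag triangulations (also of normal pseudo-manifolds) with `N` vertices.

The proof: all the `L²`-Betti numbers of all the subgroups `K` above the degree `t` vanish
(`Pool.Agent.U410.CO.l2_th`), and duality (start file library `Pool.Agent.N496.CV`).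
-/

set_option autoImplicit false

namespace Pool.Agent.Results.MP_984acc_gt.DualitySubgroups

open Pool.Agent.W907.SG Pool.Agent.W461.SGN Pool.Agent.N496.CV
open Pool.Agent.U410.CO (Thin Th th_few)
open Pool.Agent.W497.FS (NP)

/-- Let `G` be a finite graph with the set `V` of vertices and let `t` be an elimination bound of `G`, or `t ≥ n / 2`
where the flag complex of `G` is a thin normal pseudo-manifold of dimension `n - 1`, or `t ≥ |V| - 2 n` where the flag
complex of `G` is a normal pseudo-manifold of dimension `n - 1`. Let `K` be a subgroup of the kernel of
`W G → (ℤ/2)^V`, of finite or infinite index, which is a Poincare duality group of dimension `q ≥ 2 t` (of type FL).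
(1) The `L²`-Betti numbers of `K` in the degrees `k ≠ q / 2` are zero. (2) If `q = 2 d` then `(-1)^d χ(K) ≥ 0`, for the
Euler characteristic `χ(K)` computed by any resolution `C` of `ℤ` by finitely generated free modules of finite length
`p`. -/
theorem result : ∀ (t : ℕ) (V : Type) [Fintype V] [LinearOrder V] (G : SimpleGraph V),
    (Th G t (Finset.univ : Finset V) ∨ (∃ n, Thin G n (Finset.univ : Finset V) ∧ n / 2 ≤ t) ∨
      ∃ n, NP G n (Finset.univ : Finset V) ∧ Fintype.card V ≤ 2 * n + t) →
    ∀ K : Subgroup (W G), K ≤ (th G).ker → ∀ q : ℕ, 2 * t ≤ q → Nonempty (PD K q) →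
      (∀ k : ℕ, 2 * k ≠ q → HasL2Betti K k 0) ∧
      ∀ d : ℕ, q = 2 * d → ∀ (C : V7N.FreeRes K) (p : ℕ), (∀ i, p < i → C.r i = 0) →
        0 ≤ (-1 : ℤ) ^ d * ∑ i ∈ Finset.range (p + 1), (-1 : ℤ) ^ i * (C.r i : ℤ) := by
  intro t V _ _ G hG K hK q hq hP
  obtain ⟨P⟩ := hP
  have hT : Th G t (Finset.univ : Finset V) := by
    rcases hG with h | ⟨n, h, hn⟩ | ⟨n, h, hn⟩
    · exact h
    · exact h.th.le hn
    · refine (th_few h).le ?_
      rw [Finset.card_univ]
      omega
  have h0 : ∀ k : ℕ, 2 * k ≠ q → VN831.l2Betti K k = 0 := by
    intro k hk
    rcases Nat.lt_or_gt_of_ne hk with hk | hk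
    · exact pd_zero P k (q - k) (by omega) (Pool.Agent.U410.CO.l2_th hT K hK (q - k) (by omega))
    · exact Pool.Agent.U410.CO.l2_th hT K hK k (by omega)
  refine ⟨fun k hk => ?_, ?_⟩
  · have h := hasL2Betti K k
    rw [h0 k hk] at h
    exact h
  · rintro d rfl C p hp
    exact euler_sign C p d hp fun k hk => h0 k (by omega)

end Pool.Agent.Results.MP_984acc_gt.DualitySubgroups
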