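import Mathlib
import Pool.Agent.U474.FT.Slim
import Pool.Agent.U410.CO.Hv
import Pool.Agent.N496.CV.L2Pf
import Pool.Agent.N496.CV.Euler

/-!
# The Singer conjecture for Poincare duality subgroups, and the number of simplices with large links

Let `L` be the flag complex of a finite graph `G`, a normal pseudo-manifold of dimension `n - 1` (`NP G n V`; for
example a flag triangulation of the `(n-1)`-sphere). Let `W G` be the right-angled Coxeter group. If `L` is a
combinatorial sphere then `Γ = ker (W G → (ℤ/2)^V)` is the fundamental group of a closed aspherical `n`-manifold `M`,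
tessellated by cubes with the links `L`.

For all the Poincare duality groups `K ≤ Γ` of dimension `q` (of type FL, of finite or INFINITE index; for example the
fundamental groups of the covers of `M` of finite degree, `q = n`, and of the `π_1`-injective closed aspherical manifolds
of codimension one in the covers of `M`, `q = n - 1`) we show: if `q ≥ 2 t` and there are only few simplices of
`L` with large links, then the Singer conjecture holds for `K`, and `(-1)^(q/2) χ(K) ≥ 0` if `q` is even (the
conjecture of Hopf). Here few means: for some `k ≤ t + 1`, fewer than `3^k (t + 1 choose k)` simplices with `k` vertices whose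
links have at least `2 (n - k) + (t + 1 - k)` vertices; or there is a numbering of the vertices such that there are
few such simplices among the smaller neighbours of each vertex; or more generally a recursive condition. There is no
condition on the number of vertices of `L`, or on the simplices with small links. For example let `L` be a flag
triangulation of the `4`-sphere, or any flag normal pseudo-manifold of dimension `4` (`n = 5`, `t = 2`). It suffices that
there are at most `26` edges whose link is not an octahedron, or that the vertices can be numbered such that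
from each vertex there are at most `5` edges to vertices with smaller numbers whose link is not an octahedron (for
example, these edges form a planar graph). Then all closed aspherical `5`-manifolds covering `M` have no nonzero
`L²`-Betti numbers, and all the closed aspherical `4`-manifolds which map `π_1`-injectively to `M` satisfy the
conjectures of Singer and Hopf.

The proof is an extremal theorem: if the complex on a set `X` of vertices has no elimination bound `t` (`Th G t X`), then
it has at least `3^k (t + 1 choose k)` simplices with `k` vertices whose links have no elimination bound `t - k`; this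
is attained by the join of `t + 1` copies of three points. Let `B ⊆ X` be minimal without the bound. The links of
the vertices in `B` have no bound `t - 1`, and `B` has at least `3 (t + 1)` vertices. Count the pairs (vertex of `B`,
simplex). The vanishing of the `L²`-Betti numbers of all subgroups above the elimination bound: library `U410/CO` of
helper410 and start library `N496/CV`.
-/

set_option autoImplicit false

namespace Pool.Agent.Results.MP_984acc_gt.FewLargeLinks

open Pool.Agent.W907.SG Pool.Agent.W461.SGN Pool.Agent.N496.CV
open Pool.Agent.U410.CO (Th)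
open Pool.Agent.W497.FS (NP cl lkF mem_cl lkF_empty')
open Pool.Agent.U474.FT

/-- **Result.** (1) Suppose that the set `X` of vertices of `G` has no elimination bound `t`. Then for each `k ≤ t + 1` there
are at least `3^k (t + 1 choose k)` cliques `S` in `X` with `k` elements which have at least `3 (t + 1 - k)` common
neighbours in `X`, and such that, if `k ≤ t`, the set of the common neighbours has no elimination bound `t - k`.
(2) The numbers are attained: there is a graph with exactly `3^k (t + 1 choose k)` cliques with `k` elements for all
`k`, without elimination bound `t`. (3) Suppose that (a) for some `k ≤ t + 1` there are fewer than `3^k (t + 1 choose k)` cliques of `G` with `k` elements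
and at least `3 (t + 1 - k)` common neighbours, or the flag complex of `G` is a normal pseudo-manifold of
dimension `n - 1` and (b) `(∅, V, t)` is in the family `Slim n G V`, for example for some `k ≤ t + 1` there are fewer than
`3^k (t + 1 choose k)` cliques with `k` elements and at least `2 (n - k) + (t + 1 - k)` common neighbours, or (c)
`t ≥ 1` and the vertices can be numbered such that each vertex `v` has at most `3 t - 1` neighbours `u` with
smaller numbers for which the link of `{u, v}` has at least `2 (n - 2) + (t - 1)` vertices. Then for all subgroups `K`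
of `ker (W G → (ℤ/2)^V)`, of finite or infinite index, the `L²`-Betti numbers of `K` in the degrees `k > t` are zero;
and if `K` is a Poincare duality group of dimension `q ≥ 2 t` (of type FL) then its `L²`-Betti numbers in the degrees
`k ≠ q / 2` are zero, and if `q = 2 d` then `(-1)^d χ(K) ≥ 0`, for the Euler characteristic computed by any finite free
resolution. -/
theorem result :
    (∀ (V : Type) [Fintype V] [LinearOrder V] (G : SimpleGraph V) (t : ℕ) (X : Finset V), ¬ Th G t X →
      ∀ k ≤ t + 1, 3 ^ k * (t + 1).choose k ≤ {S : Finset V | G.IsClique (S : Set V) ∧ S ⊆ X ∧ S.card = k ∧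
        3 * (t + 1 - k) ≤ (lkF G X S).card ∧ (k ≤ t → ¬ Th G (t - k) (lkF G X S))}.ncard) ∧
    (∀ t : ℕ, ∃ (V : Type) (_ : Fintype V) (_ : LinearOrder V) (G : SimpleGraph V),
      ¬ Th G t (Finset.univ : Finset V) ∧
      ∀ k : ℕ, {S : Finset V | G.IsClique (S : Set V) ∧ S.card = k}.ncard = 3 ^ k * (t + 1).choose k) ∧
    (∀ (t : ℕ) (V : Type) [Fintype V] [LinearOrder V] (G : SimpleGraph V),
      ((∃ k ≤ t + 1, {S : Finset V | G.IsClique (S : Set V) ∧ S.card = k ∧
          3 * (t + 1 - k) ≤ (lkF G Finset.univ S).card}.ncard < 3 ^ k * (t + 1).choose k) ∨
        ∃ n, NP G n (Finset.univ : Finset V) ∧ (Slim n G Finset.univ ∅ Finset.univ t ∨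
          (1 ≤ t ∧ ∃ r : V → ℕ, Function.Injective r ∧ ∀ v,
            {u | G.Adj v u ∧ r u < r v ∧
              2 * (n - 2) + (t - 1) ≤ (lkF G Finset.univ {u, v}).card}.ncard ≤ 3 * t - 1))) →
      ∀ K : Subgroup (W G), K ≤ (th G).ker →
        (∀ k : ℕ, t < k → HasL2Betti K k 0) ∧
        ∀ q : ℕ, 2 * t ≤ q → Nonempty (PD K q) →
          (∀ k : ℕ, 2 * k ≠ q → HasL2Betti K k 0) ∧
          ∀ d : ℕ, q = 2 * d → ∀ (C : V7N.FreeRes K) (p : ℕ), (∀ i, p < i → C.r i = 0) →
            0 ≤ (-1 : ℤ) ^ d * ∑ i ∈ Finset.range (p + 1), (-1 : ℤ) ^ i * (C.r i : ℤ)) := by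
  have key : ∀ (V : Type) [Fintype V] [LinearOrder V] (G : SimpleGraph V) (t : ℕ) (X : Finset V), ¬ Th G t X →
      ∀ k ≤ t + 1, 3 ^ k * (t + 1).choose k ≤ {S : Finset V | G.IsClique (S : Set V) ∧ S ⊆ X ∧ S.card = k ∧
        3 * (t + 1 - k) ≤ (lkF G X S).card ∧ (k ≤ t → ¬ Th G (t - k) (lkF G X S))}.ncard := by
    intro V _ _ G t X h k hk
    classical
    obtain ⟨j, hj⟩ : ∃ j, t + 1 = k + j := ⟨t + 1 - k, by omega⟩
    have h1 : NT G (k + j) X := by
      rw [← hj]
      exact h
    have h2 := count j k X h1
    rw [← hj, ← Set.ncard_coe_finset] at h2
    refine h2.trans (Set.ncard_le_ncard (fun S hS => ?_) (Set.toFinite _))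
    rw [Finset.mem_coe, Finset.mem_filter, mem_cl] at hS
    obtain ⟨⟨h3, h4⟩, h5, h6⟩ := hS
    refine ⟨fun x hx y hy hxy => h4 x hx y hy hxy, h3, h5, ?_, fun hkt => ?_⟩
    · rw [show t + 1 - k = j by omega]
      exact h6.card
    · obtain ⟨j', rfl⟩ : ∃ j', j = j' + 1 := ⟨j - 1, by omega⟩
      rw [show t - k = j' by omega]
      exact h6
  refine ⟨key, sharp, ?_⟩
  · intro t V _ _ G hG K hK
    have hT : Th G t (Finset.univ : Finset V) := by
      rcases hG with ⟨k, hk, h⟩ | ⟨n, hN, h | ⟨ht, r, hr, h⟩⟩
      · by_contra hn
        refine absurd ((key V G t _ hn k hk).trans (Set.ncard_le_ncard ?_ (Set.toFinite _))) (not_le.2 h)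
        exact fun S hS => ⟨hS.1, hS.2.2.1, hS.2.2.2.1⟩
      · refine th_of_slim hN h (mem_cl.2 ⟨Finset.empty_subset _, by simp⟩) ?_
        rw [lkF_empty']
      · obtain ⟨s, rfl⟩ : ∃ s, t = s + 1 := ⟨t - 1, by omega⟩
        refine th_order hN r hr.injOn fun v _ => ?_
        refine le_trans (le_of_eq ?_) ((h v).trans (by omega))
        congr 1
        ext u
        simp
    have h1 : ∀ k : ℕ, t < k → VN831.l2Betti K k = 0 := fun k hk => Pool.Agent.U410.CO.l2_th hT K hK k hk
    refine ⟨fun k hk => ?_, fun q hq hP => ?_⟩
    · have h := hasL2Betti K k
      rw [h1 k hk] at h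
      exact h
    · obtain ⟨P⟩ := hP
      have h0 : ∀ k : ℕ, 2 * k ≠ q → VN831.l2Betti K k = 0 := by
        intro k hk
        rcases Nat.lt_or_gt_of_ne hk with hk | hk
        · exact pd_zero P k (q - k) (by omega) (h1 (q - k) (by omega))
        · exact h1 k (by omega)
      refine ⟨fun k hk => ?_, ?_⟩
      · have h := hasL2Betti K k
        rw [h0 k hk] at h
        exact h
      · rintro d rfl C p hp
        exact euler_sign C p d hp fun k hk => h0 k (by omega)

end Pool.Agent.Results.MP_984acc_gt.FewLargeLinks
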