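import Pool.Agent.N309.PD.Cone

/-!
# Singer's conjecture for Poincaré duality groups and the homology of the positive halves

Let `G` be a left-ordered group and let `D` be a complex of finitely generated free modules over the
complex group algebra, for instance a resolution of the trivial module for a Poincaré duality group.
Give each basis element a height in `G`; the height of the translate by `g` is `g` times the height of
the basis element. Let `C_≥` and `C_>` be the spans of the translates of basis elements of height at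
least one and more than one.

* The `L²`-Betti numbers of `D` are bounded by the dimensions of the spaces `L_k` of the parts of
  height one of the boundaries which are in `C_≥`.
* If the boundary operators do not decrease the heights, if `D` is exact in degree `k + 1`, and if each
  `k`-cycle in `C_>` which is a boundary in `C_≥` is a boundary in `C_>`, then the `L²`-Betti number in
  degree `k + 1` vanishes. The starting result `ConnectedPositiveCones` is the case `k = 0`: there the
  Cayley graph is considered and the components of its positive half are counted.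
* So the Singer conjecture holds if this is true below the middle dimension.

Proof. Boundaries `y D_k` in `C_≥` whose parts of height one are linearly independent give relations for
the square-summable cocycles; by the level inequality of the starting library `N309/LO/Level` the von
Neumann dimension of the space of cocycles is at most `r_k - dim L_k`, which bounds the Betti numbers by
`r_(k+1) - dim L_(k+1) - dim L_k`. A chain of height one whose boundary is in `C_>` can be completed to
a cycle in `C_≥`, under the assumption on the halves, and so `L_(k+1)` contains the kernel of the lowest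
part of `D_k`, and `L_k` contains its range.
-/

set_option autoImplicit false

open scoped Matrix

universe u

namespace Pool.Agent.Results.MP_984acc_gt.HigherPositiveCones

/-- The matrices of a complex of finitely generated free left modules over the complex group algebra
of `G`: the module in degree `i` consists of the row vectors with `r i` entries, and the boundary
operator from degree `i + 1` to degree `i` is the right multiplication by the matrix `D i`. -/
abbrev Matrices (G : Type u) [Group G] (r : ℕ → ℕ) :=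
  ∀ i, Matrix (Fin (r (i + 1))) (Fin (r i)) (MonoidAlgebra ℂ G)

/-- The complex is exact in degree `i + 1`. -/
def IsExactAt {G : Type u} [Group G] {r : ℕ → ℕ} (D : Matrices G r) (i : ℕ) : Prop :=
  ∀ x : Fin (r (i + 1)) → MonoidAlgebra ℂ G, x ᵥ* D i = 0 → ∃ y, y ᵥ* D (i + 1) = x

/-- `G` acts trivially on the homology in degree `0`: the translates `g e_j` and `h e_j` of a basis
element differ by a boundary. -/
def TrivialOnHZero {G : Type u} [Group G] {r : ℕ → ℕ} (D : Matrices G r) : Prop :=
  ∀ (g h : G) (j : Fin (r 0)), ∃ y, y ᵥ* D 0 =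
    Pi.single j (MonoidAlgebra.single g 1 - MonoidAlgebra.single h 1)

/-- The value at `g` of the convolution `α * f`. -/
noncomputable def conv {G : Type u} [Group G] (α : MonoidAlgebra ℂ G) (f : G → ℂ) (g : G) : ℂ :=
  ∑ k ∈ α.coeff.support, α.coeff k * f (k⁻¹ * g)

/-- The value at `g` of the convolution `α* * f` with the adjoint of `α`. -/
noncomputable def coconv {G : Type u} [Group G] (α : MonoidAlgebra ℂ G) (f : G → ℂ) (g : G) : ℂ :=
  ∑ k ∈ α.coeff.support, (starRingEnd ℂ) (α.coeff k) * f (k * g)

/-- The square-summable functions on `G × {1, …, k}`. -/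
noncomputable abbrev L2 (G : Type u) (k : ℕ) := lp (fun _ : G × Fin k => ℂ) 2

/-- `F` is mapped to zero by the coboundary operator, the matrix `A` acting by convolution. -/
def IsCocycle {G : Type u} [Group G] {k l : ℕ} (A : Matrix (Fin l) (Fin k) (MonoidAlgebra ℂ G))
    (F : L2 G k) : Prop :=
  ∀ i g, ∑ j, conv (A i j) (fun x => F (x, j)) g = 0

/-- `F` is mapped to zero by the boundary operator, the adjoint of the matrix `A`. -/
def IsCycle {G : Type u} [Group G] {k l : ℕ} (A : Matrix (Fin l) (Fin k) (MonoidAlgebra ℂ G))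
    (F : L2 G l) : Prop :=
  ∀ j g, ∑ i, coconv (A i j) (fun x => F (x, i)) g = 0

/-- The square-summable harmonic cochains in degree `i`: the square-summable functions on
`G × Fin (r i)` in the kernels of the coboundary operator (the matrix `D i`, acting by convolution)
and, if `i` is positive, of the boundary operator (the adjoint of the matrix `D (i - 1)`). They
represent the reduced `ℓ²`-cohomology. -/
noncomputable def harmonic {G : Type u} [Group G] {r : ℕ → ℕ} (D : Matrices G r) :
    (i : ℕ) → Set (L2 G (r i))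
  | 0 => {F | IsCocycle (D 0) F}
  | (i + 1) => {F | IsCocycle (D (i + 1)) F ∧ IsCycle (D i) F}

open Classical in
/-- The `i`-th `L²`-Betti number: the von Neumann dimension of the space of harmonic cochains, that
is, the sum over the basis of one minus the squared distance of the basis vector (at the identity of
`G`) to this space. -/
noncomputable def betti {G : Type u} [Group G] {r : ℕ → ℕ} (D : Matrices G r) (i : ℕ) : ℝ :=
  ∑ j : Fin (r i), (1 - Metric.infDist
    (lp.single 2 ((1 : G), j) (1 : ℂ) : L2 G (r i)) (harmonic D i) ^ 2)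

/-- The total order of `G` is left-invariant. -/
def LeftInvariant (G : Type u) [Group G] [LinearOrder G] : Prop :=
  ∀ g a b : G, a ≤ b → g * a ≤ g * b

/-- The boundary operators do not decrease the heights: the basis element `l` in degree `i + 1` has
height `w (i + 1) l`, and each term `h e_j` of its boundary has height `h * w i j ≥ w (i + 1) l`. -/
def IsHeight {G : Type u} [Group G] [LinearOrder G] {r : ℕ → ℕ}
    (D : Matrices G r) (w : (i : ℕ) → Fin (r i) → G) : Prop :=
  ∀ i l j h, (D i l j).coeff h ≠ 0 → w (i + 1) l ≤ h * w i j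

/-- The chain `x` is in `C_≥`: its terms `h e_j` have height `h * w j ≥ 1`. -/
def InHalf {G : Type u} [Group G] [LinearOrder G] {m : ℕ} (w : Fin m → G)
    (x : Fin m → MonoidAlgebra ℂ G) : Prop :=
  ∀ j h, (x j).coeff h ≠ 0 → 1 ≤ h * w j

/-- The chain `x` is in `C_>`: its terms `h e_j` have height `h * w j > 1`. -/
def InOpenHalf {G : Type u} [Group G] [LinearOrder G] {m : ℕ} (w : Fin m → G)
    (x : Fin m → MonoidAlgebra ℂ G) : Prop :=
  ∀ j h, (x j).coeff h ≠ 0 → 1 < h * w j

/-- The part of height one of the chain `x`: the coefficients at the elements `(w j)⁻¹`. -/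
def partOne {G : Type u} [Group G] {m : ℕ} (w : Fin m → G) (x : Fin m → MonoidAlgebra ℂ G) :
    Fin m → ℂ :=
  fun j => (x j).coeff (w j)⁻¹

/-- The space `L_k` of the parts of height one of the boundaries `y D_k` which are in `C_≥`. -/
def boundaryParts {G : Type u} [Group G] [LinearOrder G] {r : ℕ → ℕ} (D : Matrices G r)
    (w : (i : ℕ) → Fin (r i) → G) (k : ℕ) : Submodule ℂ (Fin (r k) → ℂ) :=
  Submodule.span ℂ {v | ∃ y, InHalf (w k) (y ᵥ* D k) ∧ v = partOne (w k) (y ᵥ* D k)}

/-- The map from the `k`-th homology of `C_>` to that of `C_≥` is injective: if the boundary of a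
chain in `C_≥` is in `C_>`, then it is the boundary of a chain in `C_>`. -/
def HalvesInjective {G : Type u} [Group G] [LinearOrder G] {r : ℕ → ℕ} (D : Matrices G r)
    (w : (i : ℕ) → Fin (r i) → G) (k : ℕ) : Prop :=
  ∀ x, InHalf (w (k + 1)) x → InOpenHalf (w k) (x ᵥ* D k) →
    ∃ y, InOpenHalf (w (k + 1)) y ∧ y ᵥ* D k = x ᵥ* D k

section proofs
open Pool.Agent.W649.ZL Pool.Agent.N309.LO Pool.Agent.N309.PD

variable {G : Type u} [Group G]

theorem opM_apply {a b : ℕ} (A : Matrix (Fin a) (Fin b) (MonoidAlgebra ℂ G)) (F : EE G (Fin b))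
    (k : Fin a) (g : G) : opM A F (g, k) = ∑ j, conv (A k j) (fun x => F (x, j)) g := by
  rw [← cmp_apply, cmp_opM]
  unfold pr
  rw [sum_apply_EE]
  refine Finset.sum_congr rfl fun j _ => ?_
  rw [Lam_apply]
  unfold conv
  refine Finset.sum_congr rfl fun x _ => ?_
  rw [cmp_apply]

theorem Lam_sig_apply (α : MonoidAlgebra ℂ G) (f : EE G Unit) (g : G) :
    Lam (sig α) f (g, ()) = coconv α (fun x => f (x, ())) g := by
  rw [Lam_apply]
  unfold coconv
  apply Finset.sum_nbij' (fun k => k⁻¹) (fun k => k⁻¹)
  · intro k hk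
    rw [Finsupp.mem_support_iff] at hk ⊢
    rw [sig_coeff] at hk
    intro h
    exact hk (by rw [h, map_zero])
  · intro k hk
    rw [Finsupp.mem_support_iff] at hk ⊢
    rw [sig_coeff, inv_inv]
    intro h
    exact hk ((map_eq_zero _).1 h)
  · intro k _
    exact inv_inv k
  · intro k _
    exact inv_inv k
  · intro k _
    rw [sig_coeff]

theorem opM_adj_apply {a b : ℕ} (A : Matrix (Fin a) (Fin b) (MonoidAlgebra ℂ G))
    (F : EE G (Fin a)) (j : Fin b) (g : G) :
    opM (adjM A) F (g, j) = ∑ k, coconv (A k j) (fun x => F (x, k)) g := by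
  rw [← cmp_apply, cmp_opM]
  unfold pr
  rw [sum_apply_EE]
  refine Finset.sum_congr rfl fun k _ => ?_
  change Lam (sig (A k j)) (cmp k F) (g, ()) = _
  rw [Lam_sig_apply]
  congr 1
  funext x
  rw [cmp_apply]

theorem ker_iff {a b : ℕ} (A : Matrix (Fin a) (Fin b) (MonoidAlgebra ℂ G)) (F : EE G (Fin b)) :
    (∀ k g, ∑ j, conv (A k j) (fun x => F (x, j)) g = 0) ↔ opM A F = 0 := by
  constructor
  · intro h
    ext ⟨g, k⟩
    rw [opM_apply, h]
    rfl
  · intro h k g
    rw [← opM_apply, h]
    rfl

theorem coker_iff {a b : ℕ} (A : Matrix (Fin a) (Fin b) (MonoidAlgebra ℂ G)) (F : EE G (Fin a)) :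
    (∀ j g, ∑ k, coconv (A k j) (fun x => F (x, k)) g = 0) ↔ opM (adjM A) F = 0 := by
  constructor
  · intro h
    ext ⟨g, j⟩
    rw [opM_adj_apply, h]
    rfl
  · intro h j g
    rw [← opM_adj_apply, h]
    rfl

theorem harmonic_zero {r : ℕ → ℕ} (D : Matrices G r) :
    harmonic D 0 = (LinearMap.ker (opM (D 0) : EE G (Fin (r 0)) →ₗ[ℂ] EE G (Fin (r 1))) :
      Set (EE G (Fin (r 0)))) := by
  ext F
  exact ker_iff (D 0) F

theorem harmonic_succ {r : ℕ → ℕ} (D : Matrices G r) (i : ℕ) :
    harmonic D (i + 1) = (harm (opM (D (i + 1))) (opM (D i)) : Set (EE G (Fin (r (i + 1))))) := by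
  ext F
  have h1 := ker_iff (D (i + 1)) F
  have h2 := coker_iff (D i) F
  have h3 := ContinuousLinearMap.orthogonal_range (opM (D i))
  rw [opM_adj] at h3
  unfold harm
  rw [h3]
  exact and_congr h1 h2

theorem betti_eq {r : ℕ → ℕ} (D : Matrices G r) (i : ℕ)
    (P : Submodule ℂ (EE G (Fin (r i)))) (hP : IsClosed (P : Set (EE G (Fin (r i)))))
    (h : harmonic D i = (P : Set (EE G (Fin (r i))))) : betti D i = vd P := by
  classical
  rw [vd_eq_infDist P hP]
  unfold betti
  rw [h]
  refine Finset.sum_congr rfl fun j _ => ?_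
  have e : (lp.single 2 ((1 : G), j) (1 : ℂ) : lp (fun _ : G × Fin (r i) => ℂ) 2)
      = (dl ((1 : G), j) : EE G (Fin (r i))) := by
    unfold dl
    congr 1
    exact Subsingleton.elim _ _
  rw [← e]

/-- the dimension of the kernel of the coboundary operator -/
noncomputable def kap {r : ℕ → ℕ} (D : Matrices G r) (i : ℕ) : ℝ :=
  vd (LinearMap.ker (opM (D i) : EE G (Fin (r i)) →ₗ[ℂ] EE G (Fin (r (i + 1)))))

theorem betti_zero {r : ℕ → ℕ} (D : Matrices G r) : betti D 0 = kap D 0 :=
  betti_eq D 0 _ (ContinuousLinearMap.isClosed_ker _) (harmonic_zero D)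

theorem betti_succ {r : ℕ → ℕ} (D : Matrices G r) (hD : ∀ i, D (i + 1) * D i = 0) (i : ℕ) :
    betti D (i + 1) = kap D (i + 1) + kap D i - r i := by
  have h0 : ∀ F, opM (D (i + 1)) (opM (D i) F) = 0 := by
    intro F
    rw [opM_eq_zero]
    intro k
    rw [pr_opM]
    have e : D (i + 1) k ᵥ* D i = 0 := by
      funext j
      exact congrFun (congrFun (hD i) k) j
    rw [e, pr_zero_left]
  rw [betti_eq D (i + 1) _ (harm_closed _ _) (harmonic_succ D i), vd_harm_eq _ _ (opM_eqv _) h0,
    Fintype.card_fin]
  rfl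

theorem betti_nonneg {r : ℕ → ℕ} (D : Matrices G r) (i : ℕ) : 0 ≤ betti D i := by
  cases i with
  | zero =>
    rw [betti_zero]
    exact vd_nonneg _
  | succ i =>
    rw [betti_eq D (i + 1) _ (harm_closed _ _) (harmonic_succ D i)]
    exact vd_nonneg _

/-- alternating sums -/
noncomputable def altSum (b : ℕ → ℝ) (n : ℕ) : ℝ :=
  ∑ i ∈ Finset.range (n + 1), (-1) ^ (n - i) * b i

/-- the correction term of the alternating sums -/
noncomputable def cor (r : ℕ → ℕ) : ℕ → ℝ
  | 0 => 0
  | (n + 1) => (r n : ℝ) - cor r n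

theorem altSum_succ (b : ℕ → ℝ) (n : ℕ) : altSum b (n + 1) = b (n + 1) - altSum b n := by
  unfold altSum
  rw [Finset.sum_range_succ _ (n + 1), Nat.sub_self, pow_zero, one_mul, add_comm, sub_eq_add_neg,
    ← Finset.sum_neg_distrib]
  congr 1
  refine Finset.sum_congr rfl fun i hi => ?_
  have h : n + 1 - i = (n - i) + 1 := by
    have := Finset.mem_range.1 hi
    omega
  rw [h, pow_succ]
  ring

theorem altSum_eq {r : ℕ → ℕ} (b κ : ℕ → ℝ) (h0 : b 0 = κ 0)
    (h : ∀ i, b (i + 1) = κ (i + 1) + κ i - r i) (n : ℕ) : altSum b n = κ n - cor r n := by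
  induction n with
  | zero =>
    unfold altSum cor
    simp [h0]
  | succ n ih =>
    rw [altSum_succ, ih, h]
    change _ = κ (n + 1) - ((r n : ℝ) - cor r n)
    ring

/-- columns which give the rank -/
theorem exists_cols {a b : ℕ} (Λ : Matrix (Fin a) (Fin b) ℂ) : ∃ S : Finset (Fin b),
    S.card = Λ.rank ∧ ∀ c : Fin b → ℂ, (∀ j, j ∉ S → c j = 0) → Λ *ᵥ c = 0 → c = 0 := by
  classical
  obtain ⟨f, hf1, hf2, hf3⟩ := Submodule.exists_fun_fin_finrank_span_eq ℂ (Set.range Λ.col)
  have hrk := Λ.rank_eq_finrank_span_cols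
  choose g hg using hf1
  have hginj : Function.Injective g := by
    intro x y hxy
    apply hf3.injective
    rw [← hg x, ← hg y, hxy]
  refine ⟨Finset.univ.image g, ?_, ?_⟩
  · rw [Finset.card_image_of_injective _ hginj, Finset.card_univ, Fintype.card_fin, hrk]
  · intro c hc hΛ
    have h1 : ∑ x, c (g x) • f x = 0 := by
      rw [← hΛ, Matrix.mulVec_eq_sum]
      have h2 : ∑ j, MulOpposite.op (c j) • Λ.col j
          = ∑ j ∈ Finset.univ.image g, MulOpposite.op (c j) • Λ.col j := by
        symm
        apply Finset.sum_subset (Finset.subset_univ _)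
        intro j _ hj
        rw [hc j hj]
        simp
      have h3 : (∑ j, MulOpposite.op (c j) • Λᵀ j)
          = ∑ j, MulOpposite.op (c j) • Λ.col j := rfl
      rw [h3, h2, Finset.sum_image (fun x _ y _ h => hginj h)]
      refine Finset.sum_congr rfl fun x _ => ?_
      rw [hg x, op_smul_eq_smul]
    have h4 := (Fintype.linearIndependent_iff.1 hf3) (fun x => c (g x)) h1
    funext j
    by_cases hj : j ∈ Finset.univ.image g
    · obtain ⟨x, _, rfl⟩ := Finset.mem_image.1 hj
      exact h4 x
    · exact hc j hj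

theorem opM_mul {a b c : ℕ} (A : Matrix (Fin a) (Fin b) (MonoidAlgebra ℂ G))
    (B : Matrix (Fin b) (Fin c) (MonoidAlgebra ℂ G)) (F : EE G (Fin c)) :
    opM (A * B) F = opM A (opM B F) := by
  apply ext_cmp
  intro i
  rw [cmp_opM, cmp_opM, pr_opM]
  rfl

/-- the level inequality for rows of height at least one -/
theorem ker_le_rank [LinearOrder G] (hG : LeftInvariant G) {a b : ℕ}
    (A : Matrix (Fin a) (Fin b) (MonoidAlgebra ℂ G)) (w : Fin b → G)
    (hA : ∀ k, InHalf w (A k)) :
    vd (LinearMap.ker (opM A : EE G (Fin b) →ₗ[ℂ] EE G (Fin a)))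
      ≤ (b : ℝ) - (Matrix.of fun k => partOne w (A k)).rank := by
  classical
  set Λ : Matrix (Fin a) (Fin b) ℂ := Matrix.of fun k => partOne w (A k) with hΛ
  set B : Matrix (Fin a) (Fin b) (MonoidAlgebra ℂ G) := fun k j =>
    MonoidAlgebra.single (w j)⁻¹ (Λ k j) with hB
  have hX : OrdInv G G := fun g a b h => hG g a b h
  have h1 : vd (LinearMap.ker (opM A : EE G (Fin b) →ₗ[ℂ] EE G (Fin a)))
      ≤ vd (LinearMap.ker (opM B : EE G (Fin b) →ₗ[ℂ] EE G (Fin a))) := by
    apply level_le hX w (fun _ => 1) _ _ (opM_eqv _) (opM_eqv _)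
    · intro j t i hne
      rw [opM_dl, inv_one, mul_one] at hne
      exact hA i j t hne
    · intro j t i he
      rw [smul_eq_mul] at he
      have e : (w j)⁻¹ = t := inv_eq_of_mul_eq_one_left he.symm
      rw [opM_dl, opM_dl, inv_one, mul_one]
      change (MonoidAlgebra.single (w j)⁻¹ (Λ i j)).coeff t = _
      rw [MonoidAlgebra.coeff_single, Finsupp.single_apply, if_pos e, ← e]
      rfl
    · intro j t i he
      rw [smul_eq_mul] at he
      rw [opM_dl, inv_one, mul_one]
      change (MonoidAlgebra.single (w j)⁻¹ (Λ i j)).coeff t = _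
      rw [MonoidAlgebra.coeff_single, Finsupp.single_apply, if_neg]
      intro e
      apply he
      rw [← e, inv_mul_cancel]
  refine h1.trans ?_
  obtain ⟨S, hS1, hS2⟩ := exists_cols Λ
  have h := vd_ker_le (opM B) (opM_eqv _) S ?_
  · rw [Fintype.card_fin, hS1] at h
    exact h
  intro F hF hFS
  have key : ∀ g : G, (fun j => F (w j * g, j)) = 0 := by
    intro g
    apply hS2
    · intro j hj
      exact hFS (w j * g, j) hj
    · funext k
      have h1 := congrArg (fun H : EE G (Fin a) => H (g, k)) hF
      have h2 : opM B F (g, k) = 0 := h1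
      rw [opM_apply] at h2
      change ∑ j, Λ k j * F (w j * g, j) = 0
      rw [← h2]
      refine Finset.sum_congr rfl fun j _ => ?_
      have h3 : conv (B k j) (fun x => F (x, j)) g
          = (Finsupp.single (w j)⁻¹ (Λ k j)).sum (fun h c => c * F (h⁻¹ * g, j)) := rfl
      rw [h3, Finsupp.sum_single_index (by rw [zero_mul]), inv_inv]
  ext ⟨x, j⟩
  have h5 := congrFun (key ((w j)⁻¹ * x)) j
  change F (w j * ((w j)⁻¹ * x), j) = 0 at h5
  rw [mul_inv_cancel_left] at h5
  exact h5

/-- the cocycles and independent boundaries in the half -/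
theorem kap_le_aux [LinearOrder G] (hG : LeftInvariant G) {r : ℕ → ℕ} (D : Matrices G r)
    (w : (i : ℕ) → Fin (r i) → G) (k : ℕ) (N : ℕ) (f : Fin N → Fin (r k) → ℂ)
    (y : Fin N → Fin (r (k + 1)) → MonoidAlgebra ℂ G) (hy1 : ∀ a, InHalf (w k) (y a ᵥ* D k))
    (hy2 : ∀ a, f a = partOne (w k) (y a ᵥ* D k)) (hf3 : LinearIndependent ℂ f) :
    kap D k ≤ (r k : ℝ) - N := by
  classical
  let Y : Matrix (Fin N) (Fin (r (k + 1))) (MonoidAlgebra ℂ G) := fun a => y a
  have h1 := ker_le_rank hG (Y * D k) (w k) (fun a => hy1 a)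
  have h2 : (Matrix.of fun a => partOne (w k) ((Y * D k) a)).rank = N := by
    have h3 : LinearIndependent ℂ (Matrix.of fun a => partOne (w k) ((Y * D k) a)).row := by
      have e : (Matrix.of fun a => partOne (w k) ((Y * D k) a)).row = f := by
        funext a
        rw [hy2 a]
        rfl
      rw [e]
      exact hf3
    rw [h3.rank_matrix, Fintype.card_fin]
  rw [h2] at h1
  have h3 : kap D k ≤ vd (LinearMap.ker
      (opM (Y * D k) : EE G (Fin (r k)) →ₗ[ℂ] EE G (Fin N))) := by
    apply vd_mono
    intro F hF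
    have hF' : opM (D k) F = 0 := hF
    change opM (Y * D k) F = 0
    rw [opM_mul, hF', map_zero]
  exact h3.trans h1

/-- the cocycles and the boundaries in the half -/
theorem kap_le [LinearOrder G] (hG : LeftInvariant G) {r : ℕ → ℕ} (D : Matrices G r)
    (w : (i : ℕ) → Fin (r i) → G) (k : ℕ) :
    kap D k ≤ (r k : ℝ) - Module.finrank ℂ (boundaryParts D w k) := by
  classical
  obtain ⟨f, hf1, _, hf3⟩ := Submodule.exists_fun_fin_finrank_span_eq ℂ
    {v | ∃ y, InHalf (w k) (y ᵥ* D k) ∧ v = partOne (w k) (y ᵥ* D k)}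
  choose y hy1 hy2 using hf1
  exact kap_le_aux hG D w k _ f y hy1 hy2 hf3

theorem sub_coeff {m : ℕ} (x y : Fin m → MonoidAlgebra ℂ G) (j : Fin m) (h : G) :
    ((x - y) j).coeff h = (x j).coeff h - (y j).coeff h := by
  rw [Pi.sub_apply]
  rfl

theorem single_mul_coeff' (g : G) (c : ℂ) (α : MonoidAlgebra ℂ G) (h : G) :
    (MonoidAlgebra.single g c * α).coeff h = c * α.coeff (g⁻¹ * h) := by
  rw [MonoidAlgebra.coeff_single_mul_eq_mul_coeff (g⁻¹ * h)]
  intro m _
  exact eq_inv_mul_iff_mul_eq.symm

theorem one_le_of_le [LinearOrder G] (hG : LeftInvariant G) {a b : G} (h : a ≤ a * b) : 1 ≤ b := by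
  have := hG a⁻¹ _ _ h
  rwa [inv_mul_cancel, inv_mul_cancel_left] at this

/-- the lowest part of the boundary operator -/
def lowMat {r : ℕ → ℕ} (D : Matrices G r) (w : (i : ℕ) → Fin (r i) → G) (k : ℕ) :
    Matrix (Fin (r (k + 1))) (Fin (r k)) ℂ :=
  fun l j => (D k l j).coeff (w (k + 1) l * (w k j)⁻¹)

/-- chains of height one -/
noncomputable def lift {m : ℕ} (w : Fin m → G) (v : Fin m → ℂ) : Fin m → MonoidAlgebra ℂ G :=
  fun l => MonoidAlgebra.single (w l)⁻¹ (v l)

theorem lift_half [LinearOrder G] {m : ℕ} (w : Fin m → G) (v : Fin m → ℂ) :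
    InHalf w (lift w v) := by
  classical
  intro j h hne
  unfold lift at hne
  rw [MonoidAlgebra.coeff_single, Finsupp.single_apply] at hne
  by_cases e : (w j)⁻¹ = h
  · rw [← e, inv_mul_cancel]
  · rw [if_neg e] at hne
    exact absurd rfl hne

theorem lift_part {m : ℕ} (w : Fin m → G) (v : Fin m → ℂ) : partOne w (lift w v) = v := by
  classical
  funext j
  unfold partOne lift
  rw [MonoidAlgebra.coeff_single, Finsupp.single_eq_same]

theorem lift_coeff {r : ℕ → ℕ} (D : Matrices G r)
    (w : (i : ℕ) → Fin (r i) → G) (k : ℕ) (v : Fin (r (k + 1)) → ℂ) (j : Fin (r k)) (h : G) :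
    ((lift (w (k + 1)) v ᵥ* D k) j).coeff h
      = ∑ l, v l * (D k l j).coeff (w (k + 1) l * h) := by
  have e : (lift (w (k + 1)) v ᵥ* D k) j = ∑ l, lift (w (k + 1)) v l * D k l j := rfl
  rw [e, MonoidAlgebra.coeff_sum, Finsupp.finsetSum_apply]
  refine Finset.sum_congr rfl fun l _ => ?_
  unfold lift
  rw [single_mul_coeff', inv_inv]

theorem lift_boundary [LinearOrder G] (hG : LeftInvariant G) {r : ℕ → ℕ} (D : Matrices G r)
    (w : (i : ℕ) → Fin (r i) → G) (hw : IsHeight D w) (k : ℕ) (v : Fin (r (k + 1)) → ℂ) :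
    InHalf (w k) (lift (w (k + 1)) v ᵥ* D k) ∧
      partOne (w k) (lift (w (k + 1)) v ᵥ* D k) = v ᵥ* lowMat D w k := by
  constructor
  · intro j h hne
    rw [lift_coeff] at hne
    obtain ⟨l, _, hl⟩ := Finset.exists_ne_zero_of_sum_ne_zero hne
    have h1 := hw k l j _ (right_ne_zero_of_mul hl)
    rw [mul_assoc] at h1
    exact one_le_of_le hG h1
  · funext j
    unfold partOne
    rw [lift_coeff]
    rfl

theorem dim_sum [LinearOrder G] (hG : LeftInvariant G) {r : ℕ → ℕ} (D : Matrices G r)
    (w : (i : ℕ) → Fin (r i) → G) (hw : IsHeight D w) (k : ℕ) (hex : IsExactAt D k)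
    (hinj : HalvesInjective D w k) :
    r (k + 1) ≤ Module.finrank ℂ (boundaryParts D w (k + 1))
      + Module.finrank ℂ (boundaryParts D w k) := by
  have h1 : LinearMap.ker (lowMat D w k).vecMulLinear ≤ boundaryParts D w (k + 1) := by
    intro v hv
    have hv' : v ᵥ* lowMat D w k = 0 := hv
    obtain ⟨hx1, hx2⟩ := lift_boundary hG D w hw k v
    have hx3 : InOpenHalf (w k) (lift (w (k + 1)) v ᵥ* D k) := by
      intro j h hne
      refine lt_of_le_of_ne (hx1 j h hne) ?_
      intro he
      apply hne
      have e : h = (w k j)⁻¹ := eq_inv_of_mul_eq_one_left he.symm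
      have h2 := congrFun hx2 j
      rw [hv'] at h2
      rw [e]
      exact h2
    obtain ⟨y, hy1, hy2⟩ := hinj _ (lift_half _ v) hx3
    have hz : (lift (w (k + 1)) v - y) ᵥ* D k = 0 := by
      rw [Matrix.sub_vecMul, hy2, sub_self]
    obtain ⟨u, hu⟩ := hex _ hz
    apply Submodule.subset_span
    refine ⟨u, ?_, ?_⟩
    · rw [hu]
      intro j h hne
      rw [sub_coeff] at hne
      by_cases h0 : (y j).coeff h = 0
      · rw [h0, sub_zero] at hne
        exact lift_half _ v j h hne
      · exact (hy1 j h h0).le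
    · rw [hu]
      funext j
      unfold partOne
      rw [sub_coeff]
      have h3 : (y j).coeff (w (k + 1) j)⁻¹ = 0 := by
        by_contra h0
        have := hy1 j _ h0
        rw [inv_mul_cancel] at this
        exact lt_irrefl _ this
      rw [h3, sub_zero]
      exact (congrFun (lift_part (w (k + 1)) v) j).symm
  have h2 : LinearMap.range (lowMat D w k).vecMulLinear ≤ boundaryParts D w k := by
    rintro _ ⟨v, rfl⟩
    obtain ⟨hx1, hx2⟩ := lift_boundary hG D w hw k v
    apply Submodule.subset_span
    exact ⟨_, hx1, hx2.symm⟩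
  have h3 := (lowMat D w k).vecMulLinear.finrank_range_add_finrank_ker
  rw [Module.finrank_fin_fun] at h3
  have h4 := Submodule.finrank_mono h1
  have h5 := Submodule.finrank_mono h2
  omega

theorem parts_zero [LinearOrder G] [Nontrivial G] (hG : LeftInvariant G) {r : ℕ → ℕ}
    (D : Matrices G r) (w : (i : ℕ) → Fin (r i) → G) (h0 : TrivialOnHZero D) :
    boundaryParts D w 0 = ⊤ := by
  classical
  -- an element greater than one
  obtain ⟨g, hg⟩ : ∃ g : G, 1 < g := by
    obtain ⟨a, ha⟩ := exists_ne (1 : G)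
    rcases lt_or_gt_of_ne ha with h | h
    · refine ⟨a⁻¹, ?_⟩
      have h1 := hG a⁻¹ _ _ h.le
      rw [inv_mul_cancel, mul_one] at h1
      exact lt_of_le_of_ne h1 (fun e => ha (inv_eq_one.1 e.symm))
    · exact ⟨a, h⟩
  rw [eq_top_iff, ← (Pi.basisFun ℂ (Fin (r 0))).span_eq, Submodule.span_le]
  rintro _ ⟨j, rfl⟩
  apply Submodule.subset_span
  obtain ⟨y, hy⟩ := h0 (w 0 j)⁻¹ (g * (w 0 j)⁻¹) j
  have hne : (w 0 j)⁻¹ ≠ g * (w 0 j)⁻¹ := by
    intro e
    have : g = 1 := by
      have h1 : 1 * (w 0 j)⁻¹ = g * (w 0 j)⁻¹ := by rw [one_mul]; exact e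
      exact (mul_right_cancel h1).symm
    exact hg.ne this.symm
  refine ⟨y, ?_, ?_⟩
  · rw [hy]
    intro i h hne'
    by_cases hij : i = j
    · subst hij
      rw [Pi.single_eq_same] at hne'
      have hc : ((MonoidAlgebra.single (w 0 i)⁻¹ (1 : ℂ) - MonoidAlgebra.single
          (g * (w 0 i)⁻¹) 1 : MonoidAlgebra ℂ G)).coeff h
          = (Finsupp.single (w 0 i)⁻¹ (1 : ℂ)) h - (Finsupp.single (g * (w 0 i)⁻¹) (1 : ℂ)) h := rfl
      rw [hc] at hne'
      by_cases e1 : (w 0 i)⁻¹ = h
      · rw [← e1, inv_mul_cancel]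
      · by_cases e2 : g * (w 0 i)⁻¹ = h
        · rw [← e2, inv_mul_cancel_right]
          exact hg.le
        · rw [Finsupp.single_apply, if_neg e1, Finsupp.single_apply, if_neg e2, sub_zero] at hne'
          exact absurd rfl hne'
    · rw [Pi.single_eq_of_ne hij] at hne'
      exact absurd rfl hne'
  · rw [hy]
    funext i
    unfold partOne
    by_cases hij : i = j
    · subst hij
      rw [Pi.single_eq_same]
      have hc : ((MonoidAlgebra.single (w 0 i)⁻¹ (1 : ℂ) - MonoidAlgebra.single
          (g * (w 0 i)⁻¹) 1 : MonoidAlgebra ℂ G)).coeff (w 0 i)⁻¹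
          = (Finsupp.single (w 0 i)⁻¹ (1 : ℂ)) (w 0 i)⁻¹
            - (Finsupp.single (g * (w 0 i)⁻¹) (1 : ℂ)) (w 0 i)⁻¹ := rfl
      rw [hc, Finsupp.single_eq_same, Finsupp.single_apply, if_neg (Ne.symm hne), sub_zero]
      simp
    · rw [Pi.single_eq_of_ne hij]
      simp [hij]

end proofs

open Pool.Agent.W649.ZL Pool.Agent.N309.LO Pool.Agent.N309.PD in
/-- **Singer's conjecture and the homology of the positive halves.** Let `G` be a left-ordered group, `D`
a complex of finitely generated free modules over its complex group algebra and `w` heights for the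
basis elements.

1. `b_0 ≤ r_0 - dim L_0` and `b_(k+1) ≤ r_(k+1) - dim L_(k+1) - dim L_k`, where `L_k` is the space of the
parts of height one of the boundaries of degree `k` in `C_≥`.
2. If `G` is not trivial and acts trivially on the homology in degree `0`, then `b_0 = 0`.
3. If the boundary operators do not decrease the heights, `D` is exact in degree `k + 1` and the
homology in degree `k` of `C_>` is mapped injectively to that of `C_≥`, then `b_(k+1) = 0`.
4. If the assumptions of 2 and those of 3 for all `k < K` are satisfied, `D` has length `n ≤ 2 K + 1`,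
and `b_i = b_(n-i)` (Poincaré duality), then `b_i = 0` for all `i ≠ n / 2`, and for `n = 2 m` the number
`b_m` is the integer `(-1)^m χ`, where `χ` is the Euler characteristic of `D`. -/
theorem result (G : Type u) [Group G] [LinearOrder G] (hG : LeftInvariant G) (r : ℕ → ℕ)
    (D : Matrices G r) (hD : ∀ i, D (i + 1) * D i = 0) (w : (i : ℕ) → Fin (r i) → G) :
    (betti D 0 ≤ (r 0 : ℝ) - Module.finrank ℂ (boundaryParts D w 0) ∧
      ∀ k, betti D (k + 1) ≤ (r (k + 1) : ℝ) - Module.finrank ℂ (boundaryParts D w (k + 1))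
        - Module.finrank ℂ (boundaryParts D w k)) ∧
    (Nontrivial G → TrivialOnHZero D → betti D 0 = 0) ∧
    (IsHeight D w →
      (∀ k, IsExactAt D k → HalvesInjective D w k → betti D (k + 1) = 0) ∧
      ∀ K n : ℕ, Nontrivial G → TrivialOnHZero D →
        (∀ k, k < K → IsExactAt D k ∧ HalvesInjective D w k) → n ≤ 2 * K + 1 →
        (∀ i, n < i → r i = 0) → (∀ i, i ≤ n → betti D i = betti D (n - i)) →
        (∀ i, 2 * i ≠ n → betti D i = 0) ∧
        ∀ m, n = 2 * m → betti D m = (-1) ^ m * ∑ i ∈ Finset.range (n + 1), (-1) ^ i * (r i : ℝ)) := by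
  classical
  have hk := kap_le hG D w
  have hb0 : betti D 0 ≤ (r 0 : ℝ) - Module.finrank ℂ (boundaryParts D w 0) := by
    rw [betti_zero]
    exact hk 0
  have hb1 : ∀ k, betti D (k + 1) ≤ (r (k + 1) : ℝ)
      - Module.finrank ℂ (boundaryParts D w (k + 1))
        - Module.finrank ℂ (boundaryParts D w k) := by
    intro k
    rw [betti_succ D hD]
    linarith [hk k, hk (k + 1)]
  have hz : Nontrivial G → TrivialOnHZero D → betti D 0 = 0 := by
    intro hnt h0
    apply le_antisymm _ (betti_nonneg D 0)
    rw [parts_zero hG D w h0, finrank_top, Module.finrank_fin_fun, sub_self] at hb0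
    exact hb0
  have hs : IsHeight D w → ∀ k, IsExactAt D k → HalvesInjective D w k → betti D (k + 1) = 0 := by
    intro hw k h1 h2
    apply le_antisymm _ (betti_nonneg D _)
    have h3 := dim_sum hG D w hw k h1 h2
    have h4 : (r (k + 1) : ℝ) ≤ Module.finrank ℂ (boundaryParts D w (k + 1))
        + Module.finrank ℂ (boundaryParts D w k) := by exact_mod_cast h3
    linarith [hb1 k]
  refine ⟨⟨hb0, hb1⟩, hz, fun hw => ⟨hs hw, ?_⟩⟩
  intro K n hnt hZ hK hnK hn hpd
  have hlow : ∀ i, 2 * i < n → betti D i = 0 := by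
    intro i hi
    cases i with
    | zero => exact hz hnt hZ
    | succ i => exact hs hw i (hK i (by omega)).1 (hK i (by omega)).2
  have h0 : ∀ i, 2 * i ≠ n → betti D i = 0 := by
    intro i hi
    by_cases h1 : 2 * i < n
    · exact hlow i h1
    · by_cases h2 : i ≤ n
      · rw [hpd i h2]
        exact hlow (n - i) (by omega)
      · unfold betti
        apply Finset.sum_eq_zero
        intro j _
        have h3 := j.2
        have h4 := hn i (by omega)
        omega
  refine ⟨h0, ?_⟩
  intro m hm
  -- the Euler characteristic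
  have hkn : kap D n = r n := by
    have h1 := ker_add_range (opM (D n)) (opM_eqv _)
    have h2 : vd (LinearMap.range (opM (D n) : EE G (Fin (r n)) →ₗ[ℂ] EE G (Fin (r (n + 1)))))
        = 0 := by
      have h3 : LinearMap.range (opM (D n) : EE G (Fin (r n)) →ₗ[ℂ] EE G (Fin (r (n + 1)))) = ⊥ := by
        rw [eq_bot_iff]
        rintro _ ⟨F, rfl⟩
        rw [Submodule.mem_bot]
        have he : IsEmpty (Fin (r (n + 1))) := by
          rw [hn (n + 1) (Nat.lt_succ_self n)]
          infer_instance
        ext ⟨x, k⟩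
        exact he.elim k
      rw [h3, vd_bot]
    rw [h2, add_zero, Fintype.card_fin] at h1
    exact h1
  have h1 := altSum_eq (r := r) _ (kap D) (betti_zero D) (betti_succ D hD) n
  rw [hkn] at h1
  have h2 : ∀ k, (r k : ℝ) - cor r k = altSum (fun i => (r i : ℝ)) k := by
    intro k
    induction k with
    | zero =>
      unfold altSum cor
      simp
    | succ k ih =>
      rw [altSum_succ, ← ih]
      rfl
  rw [h2] at h1
  unfold altSum at h1
  have h3 : ∑ i ∈ Finset.range (n + 1), (-1 : ℝ) ^ (n - i) * betti D i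
      = (-1) ^ (n - m) * betti D m := by
    apply Finset.sum_eq_single m
    · intro i _ hi
      rw [h0 i (by omega), mul_zero]
    · intro h
      exact absurd (Finset.mem_range.2 (by omega)) h
  rw [h3] at h1
  have h4 : n - m = m := by omega
  rw [h4] at h1
  have h5 : (-1 : ℝ) ^ m * (-1) ^ m = 1 := by
    rw [← mul_pow]
    norm_num
  have h6 : ∀ i ∈ Finset.range (n + 1), (-1 : ℝ) ^ (n - i) * (r i : ℝ)
      = (-1) ^ i * (r i : ℝ) := by
    intro i hi
    have h7 := Finset.mem_range.1 hi
    congr 1
    have h8 : (-1 : ℝ) ^ (n - i) * (-1) ^ i = 1 := by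
      rw [← pow_add, Nat.sub_add_cancel (by omega), hm, pow_mul]
      norm_num
    have h9 : (-1 : ℝ) ^ i * (-1) ^ i = 1 := by
      rw [← mul_pow]
      norm_num
    calc (-1 : ℝ) ^ (n - i) = (-1) ^ (n - i) * ((-1) ^ i * (-1) ^ i) := by rw [h9, mul_one]
      _ = ((-1) ^ (n - i) * (-1) ^ i) * (-1) ^ i := by ring
      _ = (-1) ^ i := by rw [h8, one_mul]
  rw [Finset.sum_congr rfl h6] at h1
  rw [← h1, ← mul_assoc, h5, one_mul]

end Pool.Agent.Results.MP_984acc_gt.HigherPositiveCones
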